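import Pool.Agent.helper84.TP.SpecA

/-! # tp:ENJ: the encoding is injective -/

set_option autoImplicit false

namespace Pool.Agent.TP

open Function Turing Turing.PartrecToTM2 Relation

theorem ENJ_dg_le (o : Option Γ') : dg o ≤ 4 := by
  rcases o with _ | g
  · exact Nat.zero_le 4
  · cases g <;> decide

theorem ENJ_dg_pos (g : Γ') : 1 ≤ dg (some g) := by
  cases g <;> decide

theorem ENJ_dg_inj {o o' : Option Γ'} (h : dg o = dg o') : o = o' := by
  rcases o with _ | g <;> rcases o' with _ | g'
  · rfl
  · have := ENJ_dg_pos g'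
    rw [← h] at this
    exact absurd this (by decide)
  · have := ENJ_dg_pos g
    rw [h] at this
    exact absurd this (by decide)
  · cases g <;> cases g' <;> first | rfl | exact absurd h (by decide)

theorem ENJ_num : ∀ l l' : List Γ', num l = num l' → l = l' := by
  intro l
  induction l with
  | nil =>
    intro l' h
    rcases l' with _ | ⟨g', l'⟩
    · rfl
    · have h1 := ENJ_dg_pos g'
      change 0 = dg (some g') + 5 * num l' at h
      omega
  | cons g l ih =>
    intro l' h
    rcases l' with _ | ⟨g', l'⟩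
    · have h1 := ENJ_dg_pos g
      change dg (some g) + 5 * num l = 0 at h
      omega
    · change dg (some g) + 5 * num l = dg (some g') + 5 * num l' at h
      have h1 := ENJ_dg_le (some g)
      have h2 := ENJ_dg_le (some g')
      have h3 : dg (some g) = dg (some g') := by omega
      have h4 : num l = num l' := by omega
      rw [Option.some.inj (ENJ_dg_inj h3), ih l' h4]

theorem ENJ : ENJ_stmt := by
  intro ν C C' hν h
  obtain ⟨q, v, S⟩ := C
  obtain ⟨q', v', S'⟩ := C'
  have h0 := congrFun h 0
  have h1 := congrFun h 1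
  have h2 := congrFun h 2
  have h3 := congrFun h 3
  have h4 := congrFun h 4
  change ((5 * ν q + dg v : ℕ) : ℤ) = ((5 * ν q' + dg v' : ℕ) : ℤ) at h0
  change ((num (S K'.main) : ℕ) : ℤ) = ((num (S' K'.main) : ℕ) : ℤ) at h1
  change ((num (S K'.rev) : ℕ) : ℤ) = ((num (S' K'.rev) : ℕ) : ℤ) at h2
  change ((num (S K'.aux) : ℕ) : ℤ) = ((num (S' K'.aux) : ℕ) : ℤ) at h3
  change ((num (S K'.stack) : ℕ) : ℤ) = ((num (S' K'.stack) : ℕ) : ℤ) at h4
  have e0 := Int.ofNat.inj h0
  have g1 := ENJ_dg_le v
  have g2 := ENJ_dg_le v'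
  have e1 : ν q = ν q' := by omega
  have e2 : dg v = dg v' := by omega
  have e3 : q = q' := hν e1
  have e4 : v = v' := ENJ_dg_inj e2
  have e5 : S = S' := by
    funext k
    cases k
    · exact ENJ_num _ _ (Int.ofNat.inj h1)
    · exact ENJ_num _ _ (Int.ofNat.inj h2)
    · exact ENJ_num _ _ (Int.ofNat.inj h3)
    · exact ENJ_num _ _ (Int.ofNat.inj h4)
  rw [e3, e4, e5]

end Pool.Agent.TP
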